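import Pool.Agent.helper90.FL.Spec

set_option autoImplicit false

namespace Pool.Agent.helper90.FL

open Finset Polynomial
open scoped Classical

theorem SCG (h : CLS_stmt) : SCG_stmt := by
  intro V E _ s t D C W
  obtain ⟨h1, h2, h3, h4, h5⟩ := h V E s t D
  have hsub : ({T | T ∈ tc s t D C ∧ (T ∩ W).Nonempty} : Set (Set V)) ⊆ (fun v => cls s t D v) '' W := by
    rintro T ⟨⟨e, he, hT⟩, v, hvT, hvW⟩
    refine ⟨v, hvW, ?_⟩
    rcases hT with rfl | rfl
    · exact h3 _ v hvT
    · exact h3 _ v hvT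
  exact (Set.ncard_le_ncard hsub (Set.toFinite _)).trans (Set.ncard_image_le (Set.toFinite _))

end Pool.Agent.helper90.FL
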