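import Pool.Agent.helper90.FL.GEN
import Pool.Agent.helper3.FL.CN0
import Pool.Agent.helper96.FL.CN1
import Pool.Agent.helper53.FL.CN2
import Pool.Agent.helper73.FL.CN4
import Pool.Agent.helper9.FL.POL
import Pool.Agent.helper27.FL.REL
import Pool.Agent.helper51.FL.IDL
import Pool.Agent.helper33.FL.CIR
import Pool.Agent.helper1.FL.POS
import Pool.Agent.helper35.FL.MIN
import Pool.Agent.helper32.FL.CLS
import Pool.Agent.helper67.FL.TCH
import Pool.Agent.helper78.FL.DBL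
import Pool.Agent.helper58.FL.BDR
import Pool.Agent.helper45.FL.SCA
import Pool.Agent.helper36.FL.SCB
import Pool.Agent.helper90.FL.SCG
import Pool.Agent.helper64.FL.SCL
import Pool.Agent.helper99.FL.ORD
import Pool.Agent.helper23.FL.BND
import Pool.Agent.helper97.FL.BRL

/-! # Project FL: assembly -/

set_option autoImplicit false

namespace Pool.Agent.helper90.FL

open Finset Polynomial
open scoped Classical

theorem pol : POL_stmt := POL CN0 CN1 CN2

theorem rel : REL_stmt := REL CN0 CN1 CN2 CN4 pol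

theorem pos : POS_stmt := POS (CIR IDL)

theorem scl : SCL_stmt := SCL CLS (DBL CLS (TCH CLS)) (BDR CLS) (SCA MIN) SCB (SCG CLS)

theorem gen : ∀ (m k n : ℕ) [NeZero n], n = m * k → 1 ≤ k → 2 ≤ m → ∀ A : Finset (Fin 3 × ZMod n),
    ∃ F : ℤ[X], (∀ q : ℕ, 1 ≤ q → F.eval (q : ℤ) = (Nat.card {f : Fin 3 × ZMod n → ZMod q // (∀ e, f e ≠ 0 ↔ e ∈ A) ∧
      ∀ v : Bool × ZMod n, (∑ e, if src n e = v then f e else 0) = ∑ e, if tgt n k e = v then f e else 0} : ℤ)) ∧
      ∀ x : ℝ, (2 * k + 2 : ℝ) < x → 0 ≤ aeval x F ∧ ((∀ S, (cut (src n) (tgt n k) A S).card ≠ 1) → 0 < aeval x F) :=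
  GEN rel pos scl ORD BND pol

theorem brl (n k : ℕ) [NeZero n] (hk : 1 ≤ k) (hkn : 2 * k ≤ n) (S : Set (Bool × ZMod n)) :
    (cut (src n) (tgt n k) univ S).card ≠ 1 := BRL n k hk hkn S

end Pool.Agent.helper90.FL
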