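import Pool.Agent.helper90.FL.Spec

/-! # Project FL: the final theorem for all subgraphs of P(mk, k) -/

set_option autoImplicit false

namespace Pool.Agent.helper90.FL

open Finset Polynomial
open scoped Classical

/-- The general form of `CNV`. -/
theorem GEN_cnv (n k q : ℕ) [NeZero n] (A : Finset (Fin 3 × ZMod n)) :
    Nat.card {f : Fin 3 × ZMod n → ZMod q // (∀ e, f e ≠ 0 ↔ e ∈ A) ∧
      ∀ v : Bool × ZMod n, (∑ e, if src n e = v then f e else 0) = ∑ e, if tgt n k e = v then f e else 0} =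
    N (src n) (tgt n k) q A ∅ := by
  have key : ∀ (f : Fin 3 × ZMod n → ZMod q) (h : ∀ e, f e ≠ 0 ↔ e ∈ A) (g : Fin 3 × ZMod n → Bool × ZMod n) (S : Set (Bool × ZMod n)),
      ∑ e ∈ A.filter (fun e => g e ∈ S), f e = ∑ v ∈ univ.filter (fun v => v ∈ S), ∑ e, if g e = v then f e else 0 := by
    intro f h g S
    rw [Finset.sum_comm]
    have h1 : ∀ e : Fin 3 × ZMod n, ∑ v ∈ univ.filter (fun v => v ∈ S), (if g e = v then f e else 0) = if g e ∈ S then f e else 0 := by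
      intro e
      rw [Finset.sum_ite_eq]
      simp
    rw [Finset.sum_congr rfl (fun e _ => h1 e), ← Finset.sum_filter]
    refine Finset.sum_subset_zero_on_sdiff (Finset.filter_subset_filter _ (Finset.subset_univ _)) ?_ (fun _ _ => rfl)
    intro e he
    have h2 := Finset.mem_sdiff.1 he
    have h3 : e ∉ A := fun hA => h2.2 (Finset.mem_filter.2 ⟨hA, (Finset.mem_filter.1 h2.1).2⟩)
    by_contra hne
    exact h3 ((h e).1 hne)
  have h5 : ∀ (S : Set (Bool × ZMod n)) (v : Bool × ZMod n) (_ : ∀ w, w ∈ S ↔ w = v) (G : Bool × ZMod n → ZMod q),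
      ∑ w ∈ univ.filter (fun w => w ∈ S), G w = G v := by
    intro S v hS G
    rw [Finset.sum_eq_single v]
    · intro w hw hne
      exact absurd ((hS w).1 (Finset.mem_filter.1 hw).2) hne
    · intro h
      exact absurd (Finset.mem_filter.2 ⟨Finset.mem_univ v, (hS v).2 rfl⟩) h
  unfold N
  refine Nat.card_congr (Equiv.subtypeEquivRight fun f => ?_)
  constructor
  · rintro ⟨h1, h2⟩
    refine ⟨h1, fun S _ => ?_⟩
    rw [key f h1 (src n) S, key f h1 (tgt n k) S]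
    exact Finset.sum_congr rfl fun v _ => h2 v
  · rintro ⟨h1, h2⟩
    refine ⟨h1, fun v => ?_⟩
    have h3 := h2 {v} (by intro e he; exact absurd he (Finset.notMem_empty e))
    rw [key f h1 (src n) {v}, key f h1 (tgt n k) {v}] at h3
    rw [h5 {v} v (fun w => Set.mem_singleton_iff), h5 {v} v (fun w => Set.mem_singleton_iff)] at h3
    exact h3

theorem GEN_uniq {F G : ℤ[X]} (h : ∀ q : ℕ, 1 ≤ q → G.eval (q : ℤ) = F.eval (q : ℤ)) : G = F := by
  refine Polynomial.eq_of_infinite_eval_eq G F ?_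
  have h1 : Set.range (fun q : ℕ => ((q + 1 : ℕ) : ℤ)) ⊆ {x | G.eval x = F.eval x} := by
    rintro _ ⟨q, rfl⟩
    exact h (q + 1) (by omega)
  refine Set.Infinite.mono h1 (Set.infinite_range_of_injective ?_)
  intro a b hab
  have h2 : ((a + 1 : ℕ) : ℤ) = ((b + 1 : ℕ) : ℤ) := hab
  omega

theorem GEN (h1 : REL_stmt) (h2 : POS_stmt) (h3 : SCL_stmt) (h4 : ORD_stmt) (h5 : BND_stmt) (h8 : POL_stmt) :
    ∀ (m k n : ℕ) [NeZero n], n = m * k → 1 ≤ k → 2 ≤ m → ∀ A : Finset (Fin 3 × ZMod n),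
    ∃ F : ℤ[X], (∀ q : ℕ, 1 ≤ q → F.eval (q : ℤ) = (Nat.card {f : Fin 3 × ZMod n → ZMod q // (∀ e, f e ≠ 0 ↔ e ∈ A) ∧
      ∀ v : Bool × ZMod n, (∑ e, if src n e = v then f e else 0) = ∑ e, if tgt n k e = v then f e else 0} : ℤ)) ∧
      ∀ x : ℝ, (2 * k + 2 : ℝ) < x → 0 ≤ aeval x F ∧ ((∀ S, (cut (src n) (tgt n k) A S).card ≠ 1) → 0 < aeval x F) := by
  intro m k n _ hn hk hm A
  have hkn : 2 * k ≤ n := by
    rw [hn]
    exact Nat.mul_le_mul_right k hm
  refine ⟨PF (src n) (tgt n k) A ∅, ?_, ?_⟩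
  · intro q hq
    rw [GEN_cnv n k q A]
    have h : ∃ F : ℤ[X], Pol (src n) (tgt n k) A ∅ F := h8 _ _ (src n) (tgt n k) A ∅
    have h' : PF (src n) (tgt n k) A ∅ = h.choose := by
      unfold PF
      exact dif_pos h
    rw [h']
    exact h.choose_spec q hq
  · intro x hx
    have hx' : ((2 * k + 2 : ℕ) : ℝ) < x := by
      push_cast
      exact hx
    have hk' : (1 : ℝ) ≤ k := by exact_mod_cast hk
    have h := h2 _ _ (src n) (tgt n k) (h1 _ _ (src n) (tgt n k)) (2 * k + 2)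
      (h3 _ _ (src n) (tgt n k) (ord n) (2 * k + 2) (h4 n) (fun j => h5 n k hk hkn j)) x hx' (by linarith) A ∅
    exact ⟨h.1, fun hS => h.2 fun S _ => hS S⟩

end Pool.Agent.helper90.FL
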