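import Mathlib

/-!
# Project FL (MP_fe76a7_co): the real flow roots of P(mk,k) are at most 2k+2, uniformly in m

Final theorem `FIN_stmt`: for all `k ≥ 1`, `m ≥ 2` the flow polynomial of `P(mk,k)` is positive on `(2k+2, ∞)`; so all real flow roots of all graphs `P(6m,6)` are `≤ 14`.

A minor is given by a pair `(A, B)` of sets of edges of a fixed multigraph (edge `e` goes from `s e` to `t e`): the edges `B` are contracted, the edges outside `A ∪ B` are deleted. Everything is formulated with `B`-closed sets of vertices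
(unions of components of the graph with the edges `B`), no quotients. Write `P(A,B)` for `Pv s t A B x`, `δ_A(S)` for `cut s t A S`, `A - e` for `A.erase e`, `B + e` for `insert e B`.

RULES. Row `XXX`: file `Pool/Agent/<seat>/FL/XXX.lean`, `import Pool.Agent.helper90.FL.Spec`, `set_option autoImplicit false`, `namespace Pool.Agent.helper90.FL`, `open Finset Polynomial`, `open scoped Classical`,
theorem line as in the note (other rows are hypotheses, so all rows are independent); auxiliary lemmas `XXX_...`. No straight double quotes, no convert / congr!.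
-/

set_option autoImplicit false

namespace Pool.Agent.helper90.FL

open Finset Polynomial
open scoped Classical

section
variable {V E : Type}

/-- `S` is a union of components of the graph with the edges `B`. -/
def Cl (s t : E → V) (B : Finset E) (S : Set V) : Prop := ∀ e ∈ B, (s e ∈ S ↔ t e ∈ S)

/-- `e` is a loop after the contraction of `B`. -/
def Lp (s t : E → V) (B : Finset E) (e : E) : Prop := ∀ S : Set V, Cl s t B S → (s e ∈ S ↔ t e ∈ S)

/-- The edges of `A` with exactly one end in `S`. -/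
noncomputable def cut (s t : E → V) (A : Finset E) (S : Set V) : Finset E := A.filter fun e => ¬ (s e ∈ S ↔ t e ∈ S)

/-- Nowhere-zero `ZMod q` flows of the minor `(A, B)`. -/
def IsF (s t : E → V) (q : ℕ) (A B : Finset E) (f : E → ZMod q) : Prop :=
  (∀ e, f e ≠ 0 ↔ e ∈ A) ∧ ∀ S : Set V, Cl s t B S → ∑ e ∈ A.filter (fun e => s e ∈ S), f e = ∑ e ∈ A.filter (fun e => t e ∈ S), f e

/-- Their number. -/
noncomputable def N (s t : E → V) (q : ℕ) (A B : Finset E) : ℕ := Nat.card {f : E → ZMod q // IsF s t q A B f}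

/-- `F` is the flow polynomial of the minor `(A, B)`. -/
def Pol (s t : E → V) (A B : Finset E) (F : ℤ[X]) : Prop := ∀ q : ℕ, 1 ≤ q → F.eval (q : ℤ) = (N s t q A B : ℤ)

/-- The flow polynomial of the minor `(A, B)`. -/
noncomputable def PF (s t : E → V) (A B : Finset E) : ℤ[X] := if h : ∃ F : ℤ[X], Pol s t A B F then h.choose else 0

/-- Its value at the real number `x`. -/
noncomputable def Pv (s t : E → V) (A B : Finset E) (x : ℝ) : ℝ := aeval x (PF s t A B)

/-- The rules. -/
structure Rel (s t : E → V) : Prop where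
  emp : ∀ B x, Pv s t ∅ B x = 1
  loop : ∀ A B e x, e ∈ A → Lp s t B e → Pv s t A B x = (x - 1) * Pv s t (A.erase e) B x
  nonloop : ∀ A B e x, e ∈ A → ¬ Lp s t B e → Pv s t A B x = Pv s t (A.erase e) (insert e B) x - Pv s t (A.erase e) B x
  cl : ∀ A B B' x, (∀ S, Cl s t B S ↔ Cl s t B' S) → Pv s t A B x = Pv s t A B' x
  cut0 : ∀ A B S e x, Cl s t B S → cut s t A S = {e} → Pv s t A B x = 0

/-- `I` is independent (a forest) after the contraction of `B`. -/
def Ind (s t : E → V) (B I : Finset E) : Prop := ∀ e ∈ I, ¬ Lp s t (B ∪ I.erase e) e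

/-- `C` is a circuit after the contraction of `B`. -/
def Cir (s t : E → V) (B C : Finset E) : Prop := C.Nonempty ∧ (∀ e ∈ C, Lp s t (B ∪ C.erase e) e) ∧ ∀ e ∈ C, Ind s t B (C.erase e)

/-- Every minor without loops and without cuts of size 1, 2 has a circuit with at most `w` edges. -/
def SC (s t : E → V) (w : ℕ) : Prop := ∀ A B : Finset E, A.Nonempty → (∀ e ∈ A, ¬ Lp s t B e) →
  (∀ S, Cl s t B S → (cut s t A S).card ≠ 1 ∧ (cut s t A S).card ≠ 2) → ∃ C ⊆ A, Cir s t B C ∧ C.card ≤ w

/-- The component of `v` in the graph with the edges `D`. -/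
def cls (s t : E → V) (D : Finset E) (v : V) : Set V := {v' | ∀ S : Set V, Cl s t D S → (v ∈ S ↔ v' ∈ S)}

/-- The components which contain an end of an edge of `I`. -/
def tc (s t : E → V) (D I : Finset E) : Set (Set V) := {T | ∃ e ∈ I, T = cls s t D (s e) ∨ T = cls s t D (t e)}

/-- The vertices which are on an edge with number `< j` and on an edge with number `≥ j`. -/
def bd (s t : E → V) (o : E → ℕ) (j : ℕ) : Set V := {v | (∃ e, o e < j ∧ (s e = v ∨ t e = v)) ∧ ∃ e, j ≤ o e ∧ (s e = v ∨ t e = v)}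

end

/-! ## Counting -/

/-- **CN0** (very short). Only `f = 0`. -/
def CN0_stmt : Prop := ∀ (V E : Type) [Fintype V] [Fintype E] (s t : E → V) (q : ℕ) (B : Finset E), N s t q ∅ B = 1

/-- **CN1** (short, medium). Loop: `f ↦ (f e, f` with the value `0` at `e)` is a bijection to (nonzero elements of `ZMod q`) × (flows of `(A - e, B)`): in the condition for a closed `S` the value `f e` is on both sides or on no side. -/
def CN1_stmt : Prop := ∀ (V E : Type) [Fintype V] [Fintype E] (s t : E → V) (q : ℕ) (A B : Finset E) (e : E), 1 ≤ q → e ∈ A → Lp s t B e →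
  N s t q A B = (q - 1) * N s t q (A.erase e) B

/-- **CN2** (medium). Contraction. Write `ex(S) = ∑_{e' ∈ A - e, t e' ∈ S} f e' - ∑_{e' ∈ A - e, s e' ∈ S} f e'` for `f` on `A - e`; `ex` is additive on disjoint sets, `ex(univ) = 0`. Given a flow `f` of `(A - e, B + e)` there is exactly one `c` such that `f` with the value `c` at `e` satisfies all conditions
for `B`-closed sets: as `e` is no loop there is a `B`-closed `S₀` with `s e ∈ S₀`, `t e ∉ S₀` (or its complement); `c = ex(S₀)` is forced. It works: if `S` is `B`-closed with `s e ∈ S`, `t e ∉ S` then `S \ S₀` and `S₀ \ S` contain no end of `e`, so they are closed for `B + e` and `ex = 0` on them, so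
`ex(S) = ex(S ∩ S₀) = ex(S₀)`; if `s e ∉ S`, `t e ∈ S` take the complement, `ex(S) = - ex(Sᶜ)`; otherwise `S` is closed for `B + e`. If `c ≠ 0` we have a flow of `(A, B)`, if `c = 0` a flow of `(A - e, B)`; so restriction (value `0` at `e`) is a bijection from the disjoint union of the flows of `(A, B)` and
`(A - e, B)` to the flows of `(A - e, B + e)`. -/
def CN2_stmt : Prop := ∀ (V E : Type) [Fintype V] [Fintype E] (s t : E → V) (q : ℕ) (A B : Finset E) (e : E), 1 ≤ q → e ∈ A → ¬ Lp s t B e →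
  N s t q A B + N s t q (A.erase e) B = N s t q (A.erase e) (insert e B)

/-- **CN4** (short). The condition for `S` says `f e = 0` (or `0 = f e`): the edges of `A` with both ends in `S` cancel. -/
def CN4_stmt : Prop := ∀ (V E : Type) [Fintype V] [Fintype E] (s t : E → V) (q : ℕ) (A B : Finset E) (S : Set V) (e : E), 1 ≤ q → Cl s t B S → cut s t A S = {e} →
  N s t q A B = 0

/-- **POL** (short), `theorem POL (h0 : CN0_stmt) (h1 : CN1_stmt) (h2 : CN2_stmt) : POL_stmt`. Induction on `#A`: `1`; `(X - 1) * F` for a loop; the difference otherwise. -/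
def POL_stmt : Prop := ∀ (V E : Type) [Fintype V] [Fintype E] (s t : E → V) (A B : Finset E), ∃ F : ℤ[X], Pol s t A B F

/-- **REL** (short, medium), `theorem REL (h0 : CN0_stmt) (h1 : CN1_stmt) (h2 : CN2_stmt) (h4 : CN4_stmt) (h : POL_stmt) : REL_stmt`. By POL and `choose_spec`, `Pol s t A B (PF s t A B)`. Two integer polynomials which agree at all `q ≥ 1` are equal (`Polynomial.eq_of_infinite_eval_eq`); so the identities hold in `ℤ[X]`,
apply `aeval x`. `cl`: `IsF` is the same predicate. -/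
def REL_stmt : Prop := ∀ (V E : Type) [Fintype V] [Fintype E] (s t : E → V), Rel s t

/-! ## Positivity -/

/-- **IDL** (short). Induction on `#I`. `I = ∅` clear. `e ∈ I`: `e` is no loop for `B` (a `B ∪ (I - e)`-closed set is `B`-closed), so `P(A,B) = P(A-e,B+e) - P(A-e,B) ≤ P(A-e,B+e)`; `I - e` is independent for `B + e` because `(B + e) ∪ (I - e - e') = B ∪ (I - e')`. -/
def IDL_stmt : Prop := ∀ (V E : Type) (s t : E → V), Rel s t → ∀ (x : ℝ) (n : ℕ), (∀ A B, A.card ≤ n → 0 ≤ Pv s t A B x) →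
  ∀ I A B : Finset E, I ⊆ A → A.card ≤ n + 1 → Ind s t B I → Pv s t A B x ≤ Pv s t (A \ I) (B ∪ I) x

/-- **CIR** (short, medium), `theorem CIR (h : IDL_stmt) : CIR_stmt`. Induction on `#C`. `C = {e}`: `e` is a loop for `B ∪ ∅`, `P(A,B) = (x-1) P(A-e,B) = (x-1) P(A-e,B+e)` (`cl`). `#C ≥ 2`: `e ∈ C` is no loop for `B` (take `e' ∈ C`, `e' ≠ e`, `Ind B (C - e')`), `P(A,B) = P(A-e,B+e) - P(A-e,B)`.
`C - e` is a circuit for `B + e`, so the first term is `≥ (x - (#C - 1)) P(A \ C, B ∪ C)`; by IDL with `I = C - e` the second one is `≤ P(A \ C, B ∪ (C - e)) = P(A \ C, B ∪ C)` (`cl`, as `e` is a loop for `B ∪ (C - e)`). -/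
def CIR_stmt : Prop := ∀ (V E : Type) (s t : E → V), Rel s t → ∀ (x : ℝ) (n : ℕ), (∀ A B, A.card ≤ n → 0 ≤ Pv s t A B x) →
  ∀ C A B : Finset E, C ⊆ A → A.card ≤ n + 1 → Cir s t B C → (x - C.card) * Pv s t (A \ C) (B ∪ C) x ≤ Pv s t A B x

/-- **POS** (medium), `theorem POS (h : CIR_stmt) : POS_stmt`. Strong induction on `#A`. `A = ∅`: `1`. If some closed `S` has `#δ_A(S) = 1`: `0` (`cut0`) and nothing else to show. A loop `e ∈ A`: `(x-1) P(A-e,B)`, and `δ_{A-e}(S) = δ_A(S)` for closed `S`. If `δ_A(S) = {e, f}`, `e ≠ f`, `S` closed: `f` is no loop,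
`P(A-f,B) = 0` (`cut0`, `δ_{A-f}(S) = {e}`), so `P(A,B) = P(A-f,B+f)`, and closed sets for `B + f` are closed for `B` with the same cut. Otherwise `SC` gives `C`, and `P(A,B) ≥ (x - #C) P(A \ C, B ∪ C) > 0` by CIR (`n = #A - 1`); closed sets for `B ∪ C` are closed for `B` with the same cut. -/
def POS_stmt : Prop := ∀ (V E : Type) (s t : E → V), Rel s t → ∀ w : ℕ, SC s t w → ∀ x : ℝ, (w : ℝ) < x → 1 < x →
  ∀ A B : Finset E, 0 ≤ Pv s t A B x ∧ ((∀ S, Cl s t B S → (cut s t A S).card ≠ 1) → 0 < Pv s t A B x)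

/-! ## Short circuits -/

/-- **MIN** (short, medium). Take `C ⊆ X` with `¬ Ind B C`, minimal (strong induction on the cardinality, or `Finset.exists_minimal`); then `Ind B (C - e)` for all `e ∈ C`. `¬ Ind`: some `c₀ ∈ C` is a loop for `B ∪ (C - c₀)`. Let `c ∈ C`, `c ≠ c₀`, and suppose that `S` is closed for `B ∪ (C - c)` and separates `c` (`¬ (s c ∈ S ↔ t c ∈ S)`).
By `Ind B (C - c)` there is `S'` closed for `B ∪ (C - c - c₀)` which separates `c₀`; it separates `c` too (otherwise it is closed for `B ∪ (C - c₀)`). The symmetric difference of `S` and `S'` separates an edge iff exactly one of them does: so it is closed for `B ∪ (C - c₀)` and separates `c₀`, a contradiction. -/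
def MIN_stmt : Prop := ∀ (V E : Type) (s t : E → V) (B X : Finset E), ¬ Ind s t B X → ∃ C ⊆ X, Cir s t B C

/-- **CLS** (short). For (2): if `d ∈ D` then every closed set contains both or none of the ends of `d`. -/
def CLS_stmt : Prop := ∀ (V E : Type) (s t : E → V) (D : Finset E),
  (∀ v, v ∈ cls s t D v) ∧ (∀ v, Cl s t D (cls s t D v)) ∧ (∀ v v', v' ∈ cls s t D v → cls s t D v' = cls s t D v) ∧
  (∀ v S, Cl s t D S → v ∈ S → cls s t D v ⊆ S) ∧ (∀ e, cls s t D (s e) = cls s t D (t e) ↔ Lp s t D e)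

/-- **TCH** (medium), `theorem TCH (h : CLS_stmt) : TCH_stmt`. Induction on `#I` (for all `D`). `I = {e}`: two different classes. `#I ≥ 2`, `e ∈ I`: `I - e` is independent for `D + e`, so `#I ≤ ncard (tc (D+e) (I-e))`. Let `M` be the class of `s e` (and of `t e`) for `D + e`, and `g T = ⋃ v ∈ T, cls (D+e) v`, so `g (cls D v) = cls (D+e) v`
(`cls D v ⊆ cls (D+e) v`). `tc (D+e) (I-e) \ {M} ⊆ g '' (tc D I \ {cls D (s e), cls D (t e)})`, so `#I - 1 ≤ ncard (tc D I) - 2` (`Set.ncard_image_le`, `Set.toFinite`). -/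
def TCH_stmt : Prop := ∀ (V E : Type) [Fintype V] (s t : E → V) (D I : Finset E), I.Nonempty → Ind s t D I → I.card + 1 ≤ (tc s t D I).ncard

/-- **DBL** (medium), `theorem DBL (h : CLS_stmt) (h2 : TCH_stmt) : DBL_stmt`. `∑_{T ∈ tc D C} #δ_C(T) = 2 #C` (each `c ∈ C` is separated by exactly two classes, those of its ends, which are different). For `T ∈ tc D C`: `#δ_C(T) ≥ 2` (it contains the edge which touches `T`; if it is `{c}` then `T` is closed for `D ∪ (C - c)` and separates `c`).
So `2 #C ≥ 3 #tc - #T'`, and `#tc ≥ ncard (tc D (C - e)) ≥ #C` by TCH. -/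
def DBL_stmt : Prop := ∀ (V E : Type) [Fintype V] (s t : E → V) (D C : Finset E) (e : E) (T' : Set (Set V)), e ∈ C → 2 ≤ C.card → (∀ c ∈ C, ¬ Lp s t D c) →
  (∀ c ∈ C, Lp s t (D ∪ C.erase c) c) → Ind s t D (C.erase e) → T' ⊆ tc s t D C → (∀ T ∈ tc s t D C, T ∉ T' → 3 ≤ (cut s t C T).card) → C.card ≤ T'.ncard

/-- **BDR** (short), `theorem BDR (h : CLS_stmt) : BDR_stmt`. `T = cls D u`. `S` = the `v ∈ T` which are on an edge with number `< j`; such a `v` is not in `bd j`, so all edges at `v` have numbers `< j`. So `S` is closed for `D` (a `d ∈ D` with one end in `S` has number `< j` and its other end is in `T`), it contains an end of `c`, so `S = T`.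
An edge of `δ_A(T)` has number `< j`, so it is in `C` or in `D`, and `T` is closed for `D`. -/
def BDR_stmt : Prop := ∀ (V E : Type) (s t : E → V) (o : E → ℕ) (j : ℕ) (A C D : Finset E) (u : V) (c : E), C ⊆ A → (∀ e ∈ A, o e < j → e ∈ C ∨ e ∈ D) →
  o c < j → (s c ∈ cls s t D u ∨ t c ∈ cls s t D u) → (∀ v ∈ cls s t D u, v ∉ bd s t o j) → cut s t A (cls s t D u) = cut s t C (cls s t D u)

/-- **SCA** (short, medium), `theorem SCA (h : MIN_stmt) : SCA_stmt`. `A` is not independent: for `e ∈ A` an `S` closed for `B ∪ (A - e)` which separates `e` has `δ_A(S) = {e}`. The sets `A.filter (o · < j)`: empty for `j = 0` (independent), `A` for large `j`; let `j + 1` be the smallest index with a dependent set (`Nat.find`); MIN gives `C`. Not all of `C` is in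
`A.filter (o · < j)` (a subset of an independent set is independent, a circuit is not), so some `e ∈ C` has `o e = j`, and by injectivity the others have `o c < j`. -/
def SCA_stmt : Prop := ∀ (V E : Type) (s t : E → V) (o : E → ℕ), Function.Injective o → ∀ A B : Finset E, A.Nonempty → (∀ S, Cl s t B S → (cut s t A S).card ≠ 1) →
  ∃ (j : ℕ) (C : Finset E) (e : E), C ⊆ A ∧ Cir s t B C ∧ e ∈ C ∧ o e = j ∧ (∀ c ∈ C, c ≠ e → o c < j) ∧ Ind s t B (A.filter fun a => o a < j)

/-- **SCB** (short, medium). Here `Y` is independent, `e ∉ Y`, `C - e ⊆ Y`, `D = B ∪ (Y \ C)`. (3) `C - e ⊆ Y` and `D ∪ (C - e - c) = B ∪ (Y - c)`. (2) monotone: a closed set for `D ∪ (C - c)` is closed for `B ∪ (C - c)`. (1) `c ≠ e`: (3). `c = e`: suppose that `e` is a loop for `D`; take `c ∈ C - e` and `S` closed for `B ∪ (Y - c)` which separates `c`;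
`S` is closed for `D`, so it does not separate `e`, so it is closed for `B ∪ (C - c)`, but `c` is a loop for `B ∪ (C - c)`. -/
def SCB_stmt : Prop := ∀ (V E : Type) (s t : E → V) (B C Y : Finset E) (e : E), Cir s t B C → e ∈ C → 2 ≤ C.card → e ∉ Y → C.erase e ⊆ Y → Ind s t B Y →
  (∀ c ∈ C, ¬ Lp s t (B ∪ (Y \ C)) c) ∧ (∀ c ∈ C, Lp s t ((B ∪ (Y \ C)) ∪ C.erase c) c) ∧ Ind s t (B ∪ (Y \ C)) (C.erase e)

/-- **SCG** (short), `theorem SCG (h : CLS_stmt) : SCG_stmt`. The classes are pairwise disjoint: choose an element of `T ∩ bd j` for each `T`; injective (`Set.ncard_le_ncard_of_injOn`). -/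
def SCG_stmt : Prop := ∀ (V E : Type) [Fintype V] (s t : E → V) (D C : Finset E) (W : Set V), ({T | T ∈ tc s t D C ∧ (T ∩ W).Nonempty} : Set (Set V)).ncard ≤ W.ncard

/-- **SCL** (medium), `theorem SCL (h1 : CLS_stmt) (h2 : DBL_stmt) (h3 : BDR_stmt) (h4 : SCA_stmt) (h5 : SCB_stmt) (h6 : SCG_stmt) : SCL_stmt`. SCA gives `j, C, e`; `Y = A.filter (o · < j)`, `D = B ∪ (Y \ C)`. `2 ≤ #C`: if `C = {e}` then `e` is a loop for `B ∪ ∅`. SCB. DBL with `T' = {T ∈ tc D C | T ∩ bd j ≠ ∅}`, then SCG: `#C ≤ ncard T' ≤ ncard (bd j) ≤ w`.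
Condition of DBL: `T ∈ tc D C` does not meet `bd j`; it is touched by some `c' ∈ C`, and `c' ∈ δ_C(T)` as `c'` is no loop for `D` (the class of the other end is different). `T` is touched by a `c ∈ C` with `c ≠ e`: otherwise `δ_C(T) = {e}`, `T` is closed for `D ∪ (C - e)` and separates `e`. By BDR `δ_A(T) = δ_C(T)`, not empty, and not of size 1 or 2 as `T` is closed for `B`. -/
def SCL_stmt : Prop := ∀ (V E : Type) [Fintype V] (s t : E → V) (o : E → ℕ) (w : ℕ), Function.Injective o → (∀ j, (bd s t o j).ncard ≤ w) → SC s t w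

/-! ## The generalized Petersen graphs -/

/-- Edge `(0, i)` = `v_i v_(i+1)`, edge `(1, i)` = `v_i w_i`, edge `(2, i)` = `w_i w_(i+k)`; `v_i = (false, i)`, `w_i = (true, i)`. -/
def src (n : ℕ) (e : Fin 3 × ZMod n) : Bool × ZMod n := if e.1 = 2 then (true, e.2) else (false, e.2)

/-- The other end. -/
def tgt (n k : ℕ) (e : Fin 3 × ZMod n) : Bool × ZMod n := if e.1 = 0 then (false, e.2 + 1) else if e.1 = 1 then (true, e.2) else (true, e.2 + k)

/-- The numbering of the edges: `v_i w_i`, `v_i v_(i+1)`, `w_i w_(i+k)` have the numbers `3 i`, `3 i + 1`, `3 i + 2`. -/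
def ord (n : ℕ) (e : Fin 3 × ZMod n) : ℕ := 3 * e.2.val + (if e.1 = 1 then 0 else if e.1 = 0 then 1 else 2)

/-- Number of nowhere-zero `ZMod q` flows of `P(n, k)`. -/
noncomputable def nz (n k q : ℕ) [NeZero n] : ℕ :=
  Nat.card {f : Fin 3 × ZMod n → ZMod q // (∀ e, f e ≠ 0) ∧ ∀ v : Bool × ZMod n, (∑ e, if src n e = v then f e else 0) = ∑ e, if tgt n k e = v then f e else 0}

/-- **ORD** (very short). -/
def ORD_stmt : Prop := ∀ (n : ℕ) [NeZero n], Function.Injective (ord n)

/-- **BND** (medium). `(b, a) ↦ (b, a.val)` is injective and maps `bd j` into `{(false, 0), (false, (j+1)/3)} ∪ {true} × range k ∪ {true} × Ico (j/3) (j/3 + k)`, which has at most `2 k + 2` elements. Edges at `v_a`, `a.val = α ≥ 1`: numbers `3 α`, `3 α + 1`, `3 (α - 1) + 1`, so `v_a ∈ bd j` gives `3 α - 2 < j ≤ 3 α + 1`, that is `α = (j+1)/3`.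
Edges at `w_a`, `α ≥ k`: `3 α`, `3 α + 2`, `3 (α - k) + 2`, so `3 (α - k) + 2 < j ≤ 3 α + 2`, that is `j/3 ≤ α < j/3 + k`. (`ZMod.val_add`, or `a - 1`, `a - k` with `ZMod.val_sub`; `k ≤ n`.) -/
def BND_stmt : Prop := ∀ (n k : ℕ) [NeZero n], 1 ≤ k → 2 * k ≤ n → ∀ j, (bd (src n) (tgt n k) (ord n) j).ncard ≤ 2 * k + 2

/-- **BRL** (short, medium). Suppose `δ(S) = {e}`; all other edges are not separated by `S`. `e = (0, i)`: `v_(i+1) ~ v_(i+2) ~ ... ~ v_(i+n) = v_i`, so `e` is not separated. `e = (1, i)`: `v_i ~ ... ~ v_(i+k) ~ w_(i+k) ~ w_i` (`(1, i+k) ≠ (1, i)` as `0 < k < n`). `e = (2, i)`: `w_i ~ v_i ~ ... ~ v_(i+k) ~ w_(i+k)`.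
(`~`: both or none in `S`; induction on the number of steps.) -/
def BRL_stmt : Prop := ∀ (n k : ℕ) [NeZero n], 1 ≤ k → 2 * k ≤ n → ∀ S, (cut (src n) (tgt n k) univ S).card ≠ 1

/-- **CNV** (short). For `B = ∅` all sets are closed; the condition for `S` is the sum of the conditions for the vertices `v ∈ S` (and for `S = {v}` it is the condition for `v`). -/
def CNV_stmt : Prop := ∀ (n k q : ℕ) [NeZero n], nz n k q = N (src n) (tgt n k) q univ ∅

/-- **FIN** (short), `theorem FIN (h1 : REL_stmt) (h2 : POS_stmt) (h3 : SCL_stmt) (h4 : ORD_stmt) (h5 : BND_stmt) (h6 : BRL_stmt) (h7 : CNV_stmt) (h8 : POL_stmt) : FIN_stmt`. `F = PF (src n) (tgt n k) univ ∅`. -/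
def FIN_stmt : Prop := ∀ (m k n : ℕ) [NeZero n], n = m * k → 1 ≤ k → 2 ≤ m → ∃ F : ℤ[X],
  (∀ q : ℕ, 1 ≤ q → F.eval (q : ℤ) = (nz n k q : ℤ)) ∧ ∀ x : ℝ, (2 * k + 2 : ℝ) < x → 0 < aeval x F

end Pool.Agent.helper90.FL
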